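import Pool.Agent.Run7.h8.RO.Divisors

/-!
# `Γ (1 / n)` is transcendental for almost all divisors `n` of highly divisible numbers

The set of the `n` for which `Γ (1 / n)` is algebraic has density zero with respect to the
multiplication: its upper Banach density in the semigroup of positive integers is zero. For every
`ε > 0` there is `N₀` such that for every multiple `N` of `N₀` the number `Γ (1 / n)` is algebraic
for at most `ε τ(N)` of the `τ(N)` divisors `n` of `N`; in particular it is transcendental for
almost all divisors `n` of `k!`, `k → ∞`. The same holds for the `n` for which `Γ (1 / n)` is an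
algebraic multiple of `z`, uniformly in the complex number `z`.

The proof: let `N` be an integer all prime factors of which divide `R` and let `M ^ 2 R < N`. If
`d_1 + d_2 = d_3 + d_4`, `d_i ≤ M`, and `Γ (d_1/N) Γ (d_2/N)` is an algebraic multiple of
`Γ (d_3/N) Γ (d_4/N)`, then two values of the Beta function are algebraic multiples of each other; by
the theorems of Wüstholz and Deligne the sums of the fractional parts of `t d_1/N`, `t d_2/N` and of
`t d_3/N`, `t d_4/N` are equal for all `t` prime to `N`. If `d_2` is the largest number, then there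
is `t ≡ 1` modulo `R` with `t d_2 > N` and `t d_3, t d_4 < N`, a contradiction. So the `d ≤ M` for
which `Γ (d/N)` is an algebraic multiple of `z` form a Sidon set, which has at most `2 √M + 1`
elements. If `N` is a multiple of all `d ≤ M`, then `Γ (d/N) = Γ (1/n)`, `n = N/d`; the sets
`{N/d : d ≤ M}` are the dilates of one finite set, and the density of a set is at most the largest
density in such a dilate.
-/

set_option autoImplicit false

namespace Pool.Agent.Results.MP_84d916_nt.AlmostAllDivisors

open Pool.Agent.W537.PC Run7.h8.RO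

/-- **Transcendence of `Γ (1 / n)` for almost all divisors.** The hypotheses on the periods `P` of
abelian varieties of CM type over `ℚ̄` are the theorems of Deligne and Wüstholz, and the computation
of the periods of the Fermat curves. -/
theorem result (P : PeriodSystem) (hDeligne : P.Deligne) (hWustholz : Wustholz P)
    (hFermat : FermatPeriods P) :
    (∀ N M R : ℕ, 0 < M → 0 < R → (∀ p : ℕ, p.Prime → p ∣ N → p ∣ R) → M * M * R < N → ∀ z : ℂ,
      {d : ℕ | 0 < d ∧ d ≤ M ∧ AlgMult z (Complex.Gamma (d / N))}.ncard ≤ Nat.sqrt (4 * M) + 1) ∧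
    (∀ ε : ℝ, 0 < ε → ∃ (K : Finset ℕ) (δ : ℝ), (∀ k ∈ K, 0 < k) ∧ 0 < δ ∧
      ∀ F : Finset ℕ, (∀ n ∈ F, 0 < n) →
        (∀ k ∈ K, ({n : ℕ | n ∈ F ∧ ¬ ∃ m ∈ F, n = m * k}.ncard : ℝ) ≤ δ * F.card) →
        ∀ z : ℂ, ({n : ℕ | n ∈ F ∧ AlgMult z (Complex.Gamma (1 / n))}.ncard : ℝ) ≤
          ε * F.card) ∧
    (∀ ε : ℝ, 0 < ε → ∃ N₀ : ℕ, 0 < N₀ ∧ ∀ N : ℕ, 0 < N → N₀ ∣ N → ∀ z : ℂ,
      ({n : ℕ | n ∣ N ∧ AlgMult z (Complex.Gamma (1 / n))}.ncard : ℝ) ≤
        ε * N.divisors.card) ∧
    Filter.Tendsto (fun k : ℕ =>
      ({n : ℕ | n ∣ k.factorial ∧ Transcendental ℚ (Real.Gamma (1 / n))}.ncard : ℝ) /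
        k.factorial.divisors.card) Filter.atTop (nhds 1) :=
  ⟨fun _ _ _ hM hR0 hR hMR z => count_small hDeligne hWustholz hFermat hM hR hR0 hMR z,
    fun ε hε => folner hDeligne hWustholz hFermat ε hε,
    fun ε hε => divisors_small hDeligne hWustholz hFermat ε hε,
    factorial_tendsto hDeligne hWustholz hFermat⟩

end Pool.Agent.Results.MP_84d916_nt.AlmostAllDivisors
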